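import Pool.Agent.helper38.TA.SpecA

set_option autoImplicit false

open Complex MeasureTheory Set

namespace Pool.Agent.TA

open Pool.Agent.BA (Par GG kl kf vf fV Bw Den PP wt lam gpf rgz)
open Pool.Agent.ZT (fP Bn NN Cen GF hm Sqf cmf lamA muA prm Eta NwD Cof thC LaC LfC FEQ Prs)

theorem GIA_meas (L : ℝ) : Measurable (Bw L) := by
  unfold Pool.Agent.BA.Bw
  refine Measurable.ite measurableSet_Iic ?_ ?_
  · exact measurable_id.pow_const _
  · exact ((measurable_const.add (Real.measurable_log.div_const L)).pow_const 2).inv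

/-- the integrand of `NN` is integrable -/
theorem GIA_int (bBW : Pool.Agent.BA.BW_stmt) (L : ℝ) (hL : 1 ≤ L) (x₁ : ℝ) (hx1 : 0 < x₁) (F : ℝ → ℂ)
    (hc : ContinuousOn F (Ioi 0)) (C : ℝ) (hC : ∀ x : ℝ, 0 < x → ‖F x‖ ≤ C * x ^ (-3 : ℝ)) :
    IntegrableOn (fun y => Bw L y * ‖F y‖) (Ioi x₁) := by
  obtain ⟨hBpos, hB1, hBanti, hBx, hBa, hBe⟩ := bBW L hL
  have hCnn : 0 ≤ C := by
    have := hC 1 one_pos
    rw [Real.one_rpow, mul_one] at this
    exact (norm_nonneg _).trans this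
  have h1 : IntegrableOn (fun y : ℝ => (x₁ ^ (-(1 / 20) : ℝ) + 1) * C * y ^ (-3 : ℝ)) (Ioi x₁) :=
    (integrableOn_Ioi_rpow_of_lt (by norm_num) hx1).const_mul _
  refine h1.mono' ?_ ?_
  · exact ((GIA_meas L).aestronglyMeasurable).mul
      (((hc.mono (Ioi_subset_Ioi hx1.le)).norm).aestronglyMeasurable measurableSet_Ioi)
  · rw [ae_restrict_iff' measurableSet_Ioi]
    refine Filter.Eventually.of_forall fun y hy => ?_
    have hy0 : 0 < y := hx1.trans hy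
    have hBle : Bw L y ≤ x₁ ^ (-(1 / 20) : ℝ) + 1 := by
      have h1 := (hBx y hy0).2
      have h2 : y ^ (-(1 / 20) : ℝ) ≤ x₁ ^ (-(1 / 20) : ℝ) :=
        Real.rpow_le_rpow_of_nonpos hx1 (le_of_lt hy) (by norm_num)
      linarith
    rw [Real.norm_of_nonneg (mul_nonneg (hBpos y hy0).le (norm_nonneg _)), mul_assoc]
    exact mul_le_mul hBle (hC y hy0) (norm_nonneg _) (by positivity)

theorem GIA (hGBA : GBA_stmt) (hGDA : GDA_stmt) (hNCA : NCA_stmt) (zBNW : Pool.Agent.ZT.BNW_stmt)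
    (bBW : Pool.Agent.BA.BW_stmt) : GIA_stmt := by
  intro n V _ _ g C₁ C₀ ρm hg hρm
  obtain ⟨CBN, -, hBN⟩ := zBNW n
  obtain ⟨x₀, hx00, hx01, CN, L₀, hCN, hL₀, hN⟩ := hNCA n V g C₁ C₀ hg
  obtain ⟨CB, hCB, hB⟩ := hGBA n V g C₁ C₀ hg
  refine ⟨x₀, hx00, hx01, ?_⟩
  intro x₁ hx1 hx1'
  set Cρ : ℝ := ρm ^ (1 / 20 : ℝ) * (1 + Real.log ρm) ^ 2 with hCρ
  have hlm : 0 ≤ Real.log ρm := Real.log_nonneg hρm
  have hCρ0 : 0 < Cρ := by
    have : 0 < 1 + Real.log ρm := by linarith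
    positivity
  have hρm0 : 0 < ρm := one_pos.trans_le hρm
  set K₀ : ℝ := CB * ρm * (CN * Cρ) with hK₀
  have hK00 : 0 < K₀ := by positivity
  obtain ⟨Q, hQ⟩ : ∃ Q : ℝ, ∀ q : ℝ, Q ≤ q → K₀ * Real.log q ^ n ≤ q ^ (1 / 200 : ℝ) := by
    have h1 := isLittleO_log_rpow_rpow_atTop (n : ℝ) (show (0 : ℝ) < 1 / 200 by norm_num)
    have h2 := h1.bound (show 0 < K₀⁻¹ by positivity)
    obtain ⟨Q, hQ⟩ := Filter.eventually_atTop.mp (h2.and (Filter.eventually_ge_atTop 1))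
    refine ⟨max Q 1, fun q hq => ?_⟩
    obtain ⟨h3, -⟩ := hQ q ((le_max_left _ _).trans hq)
    have hq1 : 1 ≤ q := (le_max_right _ _).trans hq
    have hlq : 0 ≤ Real.log q := Real.log_nonneg hq1
    rw [Real.rpow_natCast, Real.norm_of_nonneg (pow_nonneg hlq n),
      Real.norm_of_nonneg (Real.rpow_nonneg (by linarith) _)] at h3
    calc K₀ * Real.log q ^ n ≤ K₀ * (K₀⁻¹ * q ^ (1 / 200 : ℝ)) := mul_le_mul_of_nonneg_left h3 hK00.le
      _ = q ^ (1 / 200 : ℝ) := by field_simp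
  refine ⟨K₀ + CN * Cρ, by positivity, max Q (Real.exp L₀), ?_⟩
  intro q hq ρ hρ1 hρ2 a b hcen v
  have hqQ : Q ≤ q := (le_max_left _ _).trans hq
  have hqe : Real.exp L₀ ≤ q := (le_max_right _ _).trans hq
  have hq0 : 0 < q := (Real.exp_pos _).trans_le hqe
  set L := Real.log q with hL
  have hLL : L₀ ≤ L := by rw [hL, Real.le_log_iff_exp_le hq0]; exact hqe
  have hL1 : 1 ≤ L := hL₀.trans hLL
  have hq1 : 1 ≤ q := by
    have : Real.exp 0 ≤ q := (Real.exp_le_exp.mpr (by linarith)).trans hqe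
    rwa [Real.exp_zero] at this
  have hρ0 : 0 < ρ := one_pos.trans_le hρ1
  obtain ⟨hBpos, hB1, hBanti, hBx, hBa, hBe⟩ := bBW L hL1
  obtain ⟨-, hder, hdec, -, -⟩ := hGDA n V g C₁ C₀ a b hg hcen
  have hcont : ∀ j : ℕ, ContinuousOn (fun x : ℝ => GX g a j v (x / ρ)) (Ioi 0) := by
    intro j
    have h1 : ContinuousOn (GX g a j v) (Ioi 0) := fun x hx => (hder j v x hx).continuousAt.continuousWithinAt
    refine h1.comp (by fun_prop) ?_
    intro x hx
    exact div_pos hx hρ0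
  have hdec' : ∀ j : ℕ, ∀ σ : ℝ, 3 ≤ σ → ∃ C : ℝ, 0 ≤ C ∧ ∀ x : ℝ, 0 < x → ‖GX g a j v (x / ρ)‖ ≤ C * x ^ (-σ) := by
    intro j σ hσ
    obtain ⟨C, hC⟩ := hdec j v σ hσ
    have hCnn : 0 ≤ C := by
      have := hC 1 one_pos
      rw [Real.one_rpow, mul_one] at this
      exact (norm_nonneg _).trans this
    refine ⟨C * ρ ^ σ, by positivity, fun x hx => ?_⟩
    have h1 := hC (x / ρ) (div_pos hx hρ0)
    rw [Real.div_rpow hx.le hρ0.le, Real.rpow_neg hρ0.le, div_inv_eq_mul] at h1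
    calc _ ≤ _ := h1
      _ = _ := by ring
  set F : ℝ → ℂ := fun x => GX g a 0 v (x / ρ) with hF
  have hFi : IntegrableOn (fun y => Bw L y * ‖F y‖) (Ioi x₁) := by
    obtain ⟨C, -, hC⟩ := hdec' 0 3 le_rfl
    exact GIA_int bBW L hL1 x₁ hx1 F (hcont 0) C hC
  have hN1 : 0 ≤ NN L x₁ F := by
    unfold NN
    refine setIntegral_nonneg measurableSet_Ioi fun x hx => ?_
    exact mul_nonneg (hBpos x (hx1.trans hx)).le (norm_nonneg _)
  -- the norm comparison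
  have hNN : NN L (x₁ / ρ) (GX g a 0 v) ≤ Cρ * NN L x₁ F := by
    have h1 := integral_comp_mul_left_Ioi (fun y => Bw L y * ‖GX g a 0 v y‖) x₁ (show 0 < ρ⁻¹ by positivity)
    rw [inv_inv, smul_eq_mul] at h1
    have h2 : ρ⁻¹ * x₁ = x₁ / ρ := by field_simp
    rw [h2] at h1
    have h3 : NN L (x₁ / ρ) (GX g a 0 v) ≤ ρ * NN L (x₁ / ρ) (GX g a 0 v) := by
      have h4 : 0 ≤ NN L (x₁ / ρ) (GX g a 0 v) := by
        unfold NN
        refine setIntegral_nonneg measurableSet_Ioi fun x hx => ?_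
        exact mul_nonneg (hBpos x ((div_pos hx1 hρ0).trans hx)).le (norm_nonneg _)
      nlinarith
    refine h3.trans ?_
    have h5 : ρ * NN L (x₁ / ρ) (GX g a 0 v) = ∫ x in Ioi x₁, Bw L (ρ⁻¹ * x) * ‖GX g a 0 v (ρ⁻¹ * x)‖ := by
      rw [h1]
      rfl
    rw [h5]
    have h6 : Cρ * NN L x₁ F = ∫ x in Ioi x₁, Cρ * (Bw L x * ‖F x‖) := by
      rw [integral_const_mul]
      rfl
    rw [h6]
    refine integral_mono_of_nonneg ?_ (hFi.const_mul _) ?_
    · rw [Filter.EventuallyLE, ae_restrict_iff' measurableSet_Ioi]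
      refine Filter.Eventually.of_forall fun x hx => ?_
      have hx0 : 0 < x := hx1.trans hx
      exact mul_nonneg (hBpos _ (by positivity)).le (norm_nonneg _)
    · rw [Filter.EventuallyLE, ae_restrict_iff' measurableSet_Ioi]
      refine Filter.Eventually.of_forall fun x hx => ?_
      have hx0 : 0 < x := hx1.trans hx
      have h7 := hBa (ρ⁻¹ * x) ρ (by positivity) hρ1
      have h8 : ρ * (ρ⁻¹ * x) = x := by field_simp
      rw [h8] at h7
      have h9 : ρ ^ (1 / 20 : ℝ) * (1 + Real.log ρ) ^ 2 ≤ Cρ := by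
        have hl : 0 ≤ Real.log ρ := Real.log_nonneg hρ1
        have hl2 : Real.log ρ ≤ Real.log ρm := Real.log_le_log hρ0 hρ2
        refine mul_le_mul (Real.rpow_le_rpow hρ0.le hρ2 (by norm_num)) ?_ (by positivity) (by positivity)
        exact pow_le_pow_left₀ (by linarith) (by linarith) 2
      have h10 : Bw L (ρ⁻¹ * x) ≤ Cρ * Bw L x := h7.trans (mul_le_mul_of_nonneg_right h9 (hBpos x hx0).le)
      have h11 : F x = GX g a 0 v (ρ⁻¹ * x) := by
        rw [hF]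
        simp only
        congr 1
        field_simp
      rw [h11, ← mul_assoc]
      exact mul_le_mul_of_nonneg_right h10 (norm_nonneg _)
  have hMC : MX n L (g 0 v) ≤ (CN * Cρ) * L ^ n * NN L x₁ F := by
    have h1 := hN a b hcen L v hLL (x₁ / ρ) (by positivity)
      ((div_le_self hx1.le hρ1).trans hx1')
    refine h1.trans ?_
    calc CN * L ^ n * NN L (x₁ / ρ) (GX g a 0 v) ≤ CN * L ^ n * (Cρ * NN L x₁ F) :=
          mul_le_mul_of_nonneg_left hNN (by positivity)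
      _ = _ := by ring
  have hMC0 : 0 ≤ MX n L (g 0 v) := by
    unfold MX
    refine setIntegral_nonneg measurableSet_Ioi fun x hx => ?_
    exact mul_nonneg ((hBN L hL1).2.2.1 x hx).1.le (norm_nonneg _)
  -- pointwise bounds
  have hpt0 : ∀ y : ℝ, 0 < y → ‖GX g a 0 v y‖ ≤ CB * y ^ (-(43 / 50) : ℝ) * MX n L (g 0 v) := by
    intro y hy
    rcases le_total y 1 with h | h
    · refine ((hB a b hcen L v y hL1 hy).1 h).1.trans ?_
      have h1 : y ^ (-(3 / 5) : ℝ) ≤ y ^ (-(43 / 50) : ℝ) :=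
        Real.rpow_le_rpow_of_exponent_ge hy h (by norm_num)
      gcongr
    · exact ((hB a b hcen L v y hL1 hy).2 h).1
  have hpt1 : ∀ y : ℝ, 0 < y → ‖GX g a 1 v y‖ ≤ CB * y ^ (-(18 / 25) : ℝ) * MX n L (g 0 v) := by
    intro y hy
    rcases le_total y 1 with h | h
    · refine ((hB a b hcen L v y hL1 hy).1 h).2.trans ?_
      have h1 : y ^ (-(3 / 5) : ℝ) ≤ y ^ (-(18 / 25) : ℝ) :=
        Real.rpow_le_rpow_of_exponent_ge hy h (by norm_num)
      gcongr
    · exact ((hB a b hcen L v y hL1 hy).2 h).2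
  have hscale : ∀ (x e : ℝ), 0 < x → 0 ≤ e → e ≤ 1 → (x / ρ) ^ (-e) ≤ ρm * x ^ (-e) := by
    intro x e hx he0 he1
    rw [Real.div_rpow hx.le hρ0.le, Real.rpow_neg hρ0.le, div_inv_eq_mul, mul_comm]
    refine mul_le_mul_of_nonneg_right ?_ (Real.rpow_nonneg hx.le _)
    calc ρ ^ e ≤ ρ ^ (1 : ℝ) := Real.rpow_le_rpow_of_exponent_le hρ1 he1
      _ = ρ := Real.rpow_one ρ
      _ ≤ ρm := hρ2
  have hgen : ∀ (x e : ℝ) (z : ℂ), 0 < x → 0 ≤ e → e ≤ 1 → ‖z‖ ≤ CB * (x / ρ) ^ (-e) * MX n L (g 0 v) →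
      ‖z‖ ≤ K₀ * L ^ n * x ^ (-e) * NN L x₁ F := by
    intro x e z hx he0 he1 hz
    have h1 := hscale x e hx he0 he1
    have hxe : 0 ≤ x ^ (-e) := Real.rpow_nonneg hx.le _
    calc ‖z‖ ≤ CB * (x / ρ) ^ (-e) * MX n L (g 0 v) := hz
      _ ≤ CB * (ρm * x ^ (-e)) * ((CN * Cρ) * L ^ n * NN L x₁ F) := by
          refine mul_le_mul (mul_le_mul_of_nonneg_left h1 hCB.le) hMC hMC0 (by positivity)
      _ = _ := by rw [hK₀]; ring
  refine ⟨?_, ?_, ?_⟩
  · intro M hM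
    have hM0 : 0 ≤ M := hN1.trans hM
    have hfin : ∀ (x e : ℝ) (z : ℂ), 0 < x → ‖z‖ ≤ K₀ * L ^ n * x ^ (-e) * NN L x₁ F →
        ‖z‖ ≤ q ^ (1 / 200 : ℝ) * x ^ (-e) * M := by
      intro x e z hx hz
      have hxe : 0 ≤ x ^ (-e) := Real.rpow_nonneg hx.le _
      have hQq := hQ q hqQ
      refine hz.trans ?_
      refine mul_le_mul (mul_le_mul_of_nonneg_right hQq hxe) hM hN1 (by positivity)
    refine ⟨?_, hcont 1, ?_, hM, ?_, ?_⟩
    · intro x hx
      have h2 := hder 0 v (x / ρ) (div_pos hx hρ0)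
      have h3 : HasDerivAt (fun y : ℝ => y / ρ) (1 / ρ) x := (hasDerivAt_id x).div_const ρ
      have h4 := h2.scomp x h3
      refine h4.congr_deriv ?_
      have hρc : (ρ : ℂ) ≠ 0 := by exact_mod_cast hρ0.ne'
      have hxc : (x : ℂ) ≠ 0 := by exact_mod_cast hx.ne'
      rw [Complex.real_smul]
      push_cast
      field_simp
    · intro σ hσ
      obtain ⟨C, hC0, hC⟩ := hdec' 0 σ hσ
      obtain ⟨C', hC0', hC'⟩ := hdec' 1 σ hσ
      refine ⟨C + C', fun x hx => ?_⟩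
      have hxs : 0 ≤ x ^ (-σ) := Real.rpow_nonneg hx.le _
      constructor
      · refine (hC x hx).trans (mul_le_mul_of_nonneg_right (by linarith) hxs)
      · refine (hC' x hx).trans (mul_le_mul_of_nonneg_right (by linarith) hxs)
    · intro x hx
      have hx0 : 0 < x := hx1.trans_le hx
      exact hfin x _ _ hx0 (hgen x (43 / 50) _ hx0 (by norm_num) (by norm_num)
        (hpt0 (x / ρ) (div_pos hx0 hρ0)))
    · intro x hx
      have hx0 : 0 < x := hx1.trans_le hx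
      exact hfin x _ _ hx0 (hgen x (18 / 25) _ hx0 (by norm_num) (by norm_num)
        (hpt1 (x / ρ) (div_pos hx0 hρ0)))
  · have hsq : 0 < √q := Real.sqrt_pos.mpr hq0
    have hsq1 : 1 ≤ √q := Real.one_le_sqrt.mpr hq1
    have hy0 : 0 < 1 / √q / ρ := by positivity
    have hy1 : 1 / √q / ρ ≤ 1 := by
      refine (div_le_self (by positivity) hρ1).trans ?_
      exact (div_le_one hsq).mpr hsq1
    have h1 := ((hB a b hcen L v (1 / √q / ρ) hL1 hy0).1 hy1).1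
    have h2 := hgen (1 / √q) (3 / 5) _ (by positivity) (by norm_num) (by norm_num) h1
    have h3 : (1 / √q) ^ (-(3 / 5) : ℝ) = q ^ (3 / 10 : ℝ) := by
      rw [one_div, Real.inv_rpow hsq.le, Real.rpow_neg hsq.le, inv_inv, Real.sqrt_eq_rpow,
        ← Real.rpow_mul hq0.le]
      norm_num
    rw [h3] at h2
    refine h2.trans ?_
    have h4 : 0 ≤ q ^ (3 / 10 : ℝ) * L ^ n * NN L x₁ F := by positivity
    have h5 : 0 ≤ CN * Cρ := by positivity
    nlinarith [mul_nonneg h5 h4]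
  · refine hMC.trans ?_
    have h4 : 0 ≤ L ^ n * NN L x₁ F := by positivity
    nlinarith [mul_nonneg hK00.le h4]

end Pool.Agent.TA
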