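import Pool.Agent.helper38.TA.SpecA
import Pool.Agent.helper14.ZT.NRC

set_option autoImplicit false

open Complex MeasureTheory Set

namespace Pool.Agent.TA

open Pool.Agent.BA (Par GG kl kf vf fV Bw Den PP wt lam gpf rgz)
open Pool.Agent.ZT (fP Bn NN Cen GF hm Sqf cmf lamA muA prm Eta NwD Cof thC LaC LfC FEQ Prs)

theorem NCA (hIVA : IVA_stmt) (hNTA : NTA_stmt) (hGDA : GDA_stmt) (zNRH : Pool.Agent.ZT.NRH_stmt)
    (zBNW : Pool.Agent.ZT.BNW_stmt) : NCA_stmt := by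
  intro n V _ _ g CG C₀ hg
  have hCG : 0 < CG := hg.pos
  obtain ⟨CB, hCB, hB⟩ := zBNW n
  -- the point `x₁`
  set x₁ : ℝ := min 1 ((1 / (4 * CG)) ^ (20 / 7 : ℝ)) with hx₁d
  have hx₁ : 0 < x₁ := by rw [hx₁d]; positivity
  have hx₁1 : x₁ ≤ 1 := min_le_left _ _
  have hx₁G : CG * x₁ ^ (7 / 20 : ℝ) ≤ 1 / 4 := by
    have e1 : x₁ ^ (7 / 20 : ℝ) ≤ ((1 / (4 * CG)) ^ (20 / 7 : ℝ)) ^ (7 / 20 : ℝ) :=
      Real.rpow_le_rpow hx₁.le (min_le_right _ _) (by norm_num)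
    rw [← Real.rpow_mul (by positivity)] at e1
    norm_num at e1
    calc CG * x₁ ^ (7 / 20 : ℝ) ≤ CG * (CG⁻¹ * (1 / 4)) := by
          apply mul_le_mul_of_nonneg_left _ hCG.le
          exact e1
      _ = 1 / 4 := by field_simp
  obtain ⟨CT, hCT, hT⟩ := hNTA n V g CG C₀ x₁ hg hx₁ hx₁1
  -- the level `D₀`
  set K : ℝ := 36 * CT * x₁ ^ (-(1 / 20) : ℝ) with hK
  have hK0 : 0 < K := by rw [hK]; positivity
  set D₀ : ℝ := max (1 / x₁) (K ^ (100 / 21 : ℝ)) with hD₀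
  have hD1 : 1 / x₁ ≤ D₀ := le_max_left _ _
  have hD2 : 1 ≤ D₀ := by
    refine le_trans ?_ hD1
    rw [le_div_iff₀ hx₁]
    linarith
  have hD0 : 0 < D₀ := by linarith
  have hD3 : K * D₀ ^ (-(21 / 100) : ℝ) ≤ 1 := by
    have e1 : K ≤ D₀ ^ (21 / 100 : ℝ) := by
      have e2 : (K ^ (100 / 21 : ℝ)) ^ (21 / 100 : ℝ) ≤ D₀ ^ (21 / 100 : ℝ) :=
        Real.rpow_le_rpow (by positivity) (le_max_right _ _) (by norm_num)
      rw [← Real.rpow_mul hK0.le] at e2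
      norm_num at e2
      exact e2
    rw [Real.rpow_neg hD0.le, ← div_eq_mul_inv, div_le_one (by positivity)]
    exact e1
  obtain ⟨CH, L₀, hCH, hL₀, hH⟩ := zNRH n C₀ x₁ D₀ hx₁ hx₁1 hD2
  refine ⟨x₁, hx₁, hx₁1, 2 * CH, L₀, by positivity, hL₀, ?_⟩
  intro a b hab L v hL x₂ hx₂ hx₂1
  have hL1 : 1 ≤ L := hL₀.trans hL
  have hintg := hg.int L v hL1
  have hlow := hg.sm L v hL1
  obtain ⟨hBc, hBwc, hB1, hB2, hB3, hB4⟩ := hB L hL1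
  obtain ⟨-, hGSder, hGSdec, -, -⟩ := hGDA n V g CG C₀ a b hg hab
  set M := MX n L (g 0 v) with hM
  have hMdef : M = ∫ x in Ioi (0 : ℝ), Bn n L x * ‖g 0 v x‖ := rfl
  have hM0 : 0 ≤ M := by
    rw [hMdef]
    apply setIntegral_nonneg measurableSet_Ioi
    intro x hx
    exact mul_nonneg (hB1 x hx).1.le (norm_nonneg _)
  have hGc : ContinuousOn (GX g a 0 v) (Ioi 0) := fun x hx => (hGSder 0 v x hx).continuousAt.continuousWithinAt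
  obtain ⟨C3, hC3⟩ := hGSdec 0 v 3 (by norm_num)
  obtain ⟨C5, hC5⟩ := hGSdec 0 v 5 (by norm_num)
  obtain ⟨hHi, hHb⟩ := hH b hab.b0 hab.lsb L (fun y => ‖GX g a 0 v y‖) hL hGc.norm (fun y => norm_nonneg _)
    ⟨C5, fun x hx => by have := hC5 x hx; norm_num at this ⊢; exact this⟩
  -- the pointwise bound
  have hpt : ∀ x ∈ Ioi x₁, Bn n L x * ‖g 0 v x‖ ≤
      Bn n L x * (∑' d : ℕ, (if (d : ℝ) ≤ D₀ * max 1 x ^ 2 then ‖b d‖ * ‖GX g a 0 v (d * x)‖ else 0)) +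
      x₁ ^ (-(1 / 20) : ℝ) * CT * D₀ ^ (-(21 / 100) : ℝ) * M * (max 1 x) ^ (-(57 / 50) : ℝ) := by
    intro x hx
    have hx1 : x₁ < x := hx
    have hx0 : 0 < x := lt_trans hx₁ hx1
    obtain ⟨hs, hsum⟩ := hIVA n V g CG C₀ a b hg hab v x hx0
    have hsp := Pool.Agent.ZT.NRC_split b (fun d => GX g a 0 v (d * x)) (fun d => (d : ℝ) ≤ D₀ * max 1 x ^ 2) hs
    rw [hsum] at hsp
    have ht := hT D₀ hD1 a b hab L v x hL1 hx1.le
    have hBn : Bn n L x ≤ x₁ ^ (-(1 / 20) : ℝ) := by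
      rw [← (hB4 x₁ hx₁ hx₁1).1]
      exact hB3 x₁ x hx₁ hx1.le
    have hBn0 : 0 < Bn n L x := (hB1 x hx0).1
    have htl : Bn n L x * ‖∑' d : ℕ, (if (d : ℝ) ≤ D₀ * max 1 x ^ 2 then 0 else b d * GX g a 0 v (d * x))‖ ≤
        x₁ ^ (-(1 / 20) : ℝ) * (CT * D₀ ^ (-(21 / 100) : ℝ) * (max 1 x) ^ (-(57 / 50) : ℝ) * M) :=
      mul_le_mul hBn ht (norm_nonneg _) (by positivity)
    calc Bn n L x * ‖g 0 v x‖ ≤ Bn n L x * ((∑' d : ℕ, (if (d : ℝ) ≤ D₀ * max 1 x ^ 2 then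
          ‖b d‖ * ‖GX g a 0 v (d * x)‖ else 0)) +
          ‖∑' d : ℕ, (if (d : ℝ) ≤ D₀ * max 1 x ^ 2 then 0 else b d * GX g a 0 v (d * x))‖) :=
          mul_le_mul_of_nonneg_left hsp hBn0.le
      _ ≤ _ := by
          rw [mul_add]
          apply add_le_add le_rfl
          refine htl.trans (le_of_eq (by ring))
  have hI := Pool.Agent.ZT.NRC_int
  have hI1 : IntegrableOn (fun x : ℝ => (max 1 x) ^ (-(57 / 50) : ℝ)) (Ioi x₁) := hI.1.mono_set (Ioi_subset_Ioi hx₁.le)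
  have hI2 : ∫ x in Ioi x₁, (max 1 x) ^ (-(57 / 50) : ℝ) ≤ 9 := by
    refine le_trans ?_ hI.2
    apply setIntegral_mono_set hI.1
    · refine (ae_restrict_iff' measurableSet_Ioi).2 (Filter.Eventually.of_forall fun x _ => ?_)
      exact Real.rpow_nonneg (le_trans zero_le_one (le_max_left _ _)) _
    · exact HasSubset.Subset.eventuallyLE (Ioi_subset_Ioi hx₁.le)
  set c1 : ℝ := x₁ ^ (-(1 / 20) : ℝ) * CT * D₀ ^ (-(21 / 100) : ℝ) * M with hc1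
  have hc10 : 0 ≤ c1 := by rw [hc1]; positivity
  have hhigh : ∫ x in Ioi x₁, Bn n L x * ‖g 0 v x‖ ≤ CH * L ^ n * NN L x₁ (GX g a 0 v) + M / 4 := by
    have e1 : ∫ x in Ioi x₁, Bn n L x * ‖g 0 v x‖ ≤
        ∫ x in Ioi x₁, (Bn n L x * (∑' d : ℕ, (if (d : ℝ) ≤ D₀ * max 1 x ^ 2 then ‖b d‖ * ‖GX g a 0 v (d * x)‖ else 0)) +
          c1 * (max 1 x) ^ (-(57 / 50) : ℝ)) :=
      setIntegral_mono_on (hintg.mono_set (Ioi_subset_Ioi hx₁.le)) (hHi.add (hI1.const_mul c1)) measurableSet_Ioi hpt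
    rw [integral_add hHi (hI1.const_mul c1), integral_const_mul] at e1
    refine e1.trans (add_le_add hHb ?_)
    have e2 : c1 * ∫ x in Ioi x₁, (max 1 x) ^ (-(57 / 50) : ℝ) ≤ c1 * 9 := mul_le_mul_of_nonneg_left hI2 hc10
    refine e2.trans ?_
    have e3 : c1 * 9 = (K * D₀ ^ (-(21 / 100) : ℝ)) * M / 4 := by
      rw [hc1, hK]
      ring
    rw [e3]
    have e4 : K * D₀ ^ (-(21 / 100) : ℝ) * M ≤ 1 * M := mul_le_mul_of_nonneg_right hD3 hM0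
    linarith
  have hlow' : ∫ x in Ioc 0 x₁, Bn n L x * ‖g 0 v x‖ ≤ M / 4 := by
    refine (hlow x₁ hx₁ hx₁1).trans ?_
    have : CG * x₁ ^ (7 / 20 : ℝ) * M ≤ 1 / 4 * M := mul_le_mul_of_nonneg_right hx₁G hM0
    linarith
  have hspl : M = (∫ x in Ioc 0 x₁, Bn n L x * ‖g 0 v x‖) + ∫ x in Ioi x₁, Bn n L x * ‖g 0 v x‖ := by
    rw [hMdef, ← setIntegral_union (Ioc_disjoint_Ioi le_rfl) measurableSet_Ioi
      (hintg.mono_set Ioc_subset_Ioi_self) (hintg.mono_set (Ioi_subset_Ioi hx₁.le)), Ioc_union_Ioi_eq_Ioi hx₁.le]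
  have hNN : NN L x₁ (GX g a 0 v) ≤ NN L x₂ (GX g a 0 v) :=
    Pool.Agent.ZT.NRC_NN L hL1 hBwc _ hGc C3 hC3 x₁ x₂ hx₂ hx₂1
  have hfin : CH * L ^ n * NN L x₁ (GX g a 0 v) ≤ CH * L ^ n * NN L x₂ (GX g a 0 v) :=
    mul_le_mul_of_nonneg_left hNN (by positivity)
  have : 2 * CH * L ^ n * NN L x₂ (GX g a 0 v) = 2 * (CH * L ^ n * NN L x₂ (GX g a 0 v)) := by ring
  rw [this]
  linarith

end Pool.Agent.TA
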